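import Pool.Agent.MP_993212_an.H46.Spec

/-! Bounded coset representatives in the unipotent part. -/

namespace Pool.Agent.MP_993212_an.H85

open H46

section Pow

variable {L : Type} [Ring L] {I : Submodule ℤ L} {θ : L}

theorem pow_le (hI : I * I ≤ I) (m : ℕ) : I ^ (m + 2) ≤ I ^ (m + 1) := by
  rw [pow_succ' I (m + 1), pow_succ' I m, ← mul_assoc]
  exact mul_le_mul_left hI _

theorem pow_le_one (hI : I * I ≤ I) (m : ℕ) : I ^ (m + 1) ≤ I := by
  induction m with
  | zero => simp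
  | succ m ih => exact (pow_le hI m).trans ih

theorem mul_right_mem {m : ℕ} {x y : L} (hx : x ∈ I ^ m) (hy : y ∈ I) : x * y ∈ I ^ (m + 1) := by
  rw [pow_succ]
  exact Submodule.mul_mem_mul hx hy

theorem mul_left_mem {m : ℕ} {x y : L} (hx : x ∈ I) (hy : y ∈ I ^ m) : x * y ∈ I ^ (m + 1) := by
  rw [pow_succ']
  exact Submodule.mul_mem_mul hx hy

theorem th_mem (hθ : ∀ x ∈ I, θ * x ∈ I) {m : ℕ} {x : L} (hx : x ∈ I ^ (m + 1)) :
    θ * x ∈ I ^ (m + 1) := by
  rw [pow_succ'] at hx ⊢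
  refine Submodule.mul_induction_on hx (fun a ha b hb => ?_) fun a b ha hb => ?_
  · rw [← mul_assoc]
    exact Submodule.mul_mem_mul (hθ a ha) hb
  · rw [mul_add]
    exact add_mem ha hb

theorem thp_mem (hθ : ∀ x ∈ I, θ * x ∈ I) {m : ℕ} {x : L} (hx : x ∈ I ^ (m + 1)) (k : ℕ) :
    θ ^ k * x ∈ I ^ (m + 1) := by
  induction k with
  | zero => simpa using hx
  | succ k ih =>
    rw [pow_succ' θ, mul_assoc]
    exact th_mem hθ ih

theorem mul_pow_mem (hI : I * I ≤ I) {m : ℕ} {x y : L} (hx : x ∈ I ^ (m + 1)) (hy : y ∈ I)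
    (i : ℕ) : x * y ^ i ∈ I ^ (m + 1) := by
  induction i with
  | zero => simpa using hx
  | succ i ih =>
    rw [pow_succ y, ← mul_assoc]
    exact pow_le hI m (mul_right_mem ih hy)

/-- binomial expansion modulo the next power -/
theorem binom (hI : I * I ≤ I) {t : L} (ht : ∀ x, t * x = x * t) {m : ℕ}
    (htm : ∀ x ∈ I ^ (m + 1), ∀ k, t ^ k * x ∈ I ^ (m + 1))
    (htm' : ∀ x ∈ I ^ (m + 2), t * x ∈ I ^ (m + 2)) {z : L} (hz : z ∈ I ^ (m + 1)) (n : ℕ) :
    ∃ y ∈ I ^ (m + 2), t * (t + -z) ^ n = t ^ (n + 1) - (n : L) * (t ^ n * z) + y := by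
  induction n with
  | zero => exact ⟨0, zero_mem _, by simp⟩
  | succ n ih =>
    obtain ⟨y, hy, e⟩ := ih
    have hz1 := pow_le_one hI m hz
    refine ⟨(n : ℤ) • (t ^ n * z * z) + t * y - y * z, ?_, ?_⟩
    · refine sub_mem (add_mem (Submodule.smul_mem _ _ (mul_right_mem (htm z hz n) hz1))
        (htm' y hy)) (pow_le hI (m + 1) (mul_right_mem hy hz1))
    · rw [pow_succ (t + -z), ← mul_assoc, e]
      have h1 : z * t = t * z := (ht z).symm
      have h2 : y * t = t * y := (ht y).symm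
      simp only [zsmul_eq_mul, Int.cast_natCast, Nat.cast_succ, pow_succ, mul_add, add_mul, sub_mul,
        mul_neg, mul_assoc, h1, h2, one_mul]
      abel

end Pow

section Main

variable {L : Type} [Ring L] {ν : L → ℕ} {θ : L} {s : ℕ} {w : Fin s → L}

theorem nu_sum (ha : ∀ x y, ν (x + y) ≤ ν x + ν y) (h0 : ν 0 = 0) {α : Type} (S : Finset α)
    (f : α → L) : ν (∑ a ∈ S, f a) ≤ ∑ a ∈ S, ν (f a) :=
  Finset.le_sum_of_subadditive ν h0.le ha S f

theorem nu_nsmul (ha : ∀ x y, ν (x + y) ≤ ν x + ν y) (h0 : ν 0 = 0) (c : ℕ) (x : L) :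
    ν (c • x) ≤ c * ν x := by
  induction c with
  | zero => simp [h0]
  | succ c ih =>
    rw [succ_nsmul, Nat.succ_mul]
    exact (ha _ _).trans (Nat.add_le_add_right ih _)

/-- bounded generators of the powers -/
theorem gens (hm : ∀ x y, ν (x * y) ≤ ν x * ν y) {N : ℕ} (hw : ∀ i, ν (w i) ≤ N) (m : ℕ) :
    ∃ (α : Type) (_ : Fintype α) (v : α → L), Fintype.card α = s ^ (m + 1) ∧
      (∀ a, ν (v a) ≤ N ^ (m + 1)) ∧
      Submodule.span ℤ (Set.range w) ^ (m + 1) = Submodule.span ℤ (Set.range v) := by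
  induction m with
  | zero => exact ⟨Fin s, inferInstance, w, by simp, by simpa using hw, by simp⟩
  | succ m ih =>
    obtain ⟨α, _, v, hc, hv, e⟩ := ih
    refine ⟨α × Fin s, inferInstance, fun p => v p.1 * w p.2, by simp [hc, pow_succ],
      fun p => (hm _ _).trans ?_, ?_⟩
    · rw [pow_succ N (m + 1)]
      exact Nat.mul_le_mul (hv _) (hw _)
    · rw [pow_succ _ (m + 1), e, Submodule.span_mul_span]
      congr 1
      ext x
      simp only [Set.mem_mul, Set.mem_range, Prod.exists]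
      constructor
      · rintro ⟨_, ⟨a, rfl⟩, _, ⟨i, rfl⟩, rfl⟩
        exact ⟨a, i, rfl⟩
      · rintro ⟨a, i, rfl⟩
        exact ⟨_, ⟨a, rfl⟩, _, ⟨i, rfl⟩, rfl⟩

/-- reduction modulo `e` -/
theorem reduce {α : Type} [Fintype α] (v : α → L) {e : ℕ} (he : 1 ≤ e) {y : L}
    (hy : y ∈ Submodule.span ℤ (Set.range v)) :
    ∃ (c : α → Fin e), ∃ z ∈ Submodule.span ℤ (Set.range v),
      y = ∑ a, (c a : ℕ) • v a + (e : ℤ) • z := by
  obtain ⟨t, rfl⟩ := (Submodule.mem_span_range_iff_exists_fun ℤ).1 hy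
  have he' : (0 : ℤ) < e := by exact_mod_cast he
  refine ⟨fun a => ⟨(t a % e).toNat, ?_⟩, ∑ a, (t a / e) • v a,
    Submodule.sum_mem _ fun a _ => Submodule.smul_mem _ _ (Submodule.subset_span ⟨a, rfl⟩), ?_⟩
  · have h1 := Int.emod_nonneg (t a) he'.ne'
    have h2 := Int.emod_lt_of_pos (t a) he'
    omega
  · rw [Finset.smul_sum, ← Finset.sum_add_distrib]
    refine Finset.sum_congr rfl fun a _ => ?_
    rw [← natCast_zsmul, smul_smul, ← add_smul, Int.toNat_of_nonneg (Int.emod_nonneg _ he'.ne'),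
      Int.emod_add_mul_ediv]

/-- pigeonhole step -/
theorem pigeon {α : Type} [Fintype α] (v : α → L) {e : ℕ} (he : 1 ≤ e)
    (hθ : ∀ x ∈ Submodule.span ℤ (Set.range v), ∀ k, θ ^ k * x ∈ Submodule.span ℤ (Set.range v))
    (k : ℕ) {x : L} (hx : x ∈ Submodule.span ℤ (Set.range v)) :
    ∃ (a : ℕ) (c : α → Fin e), ∃ z ∈ Submodule.span ℤ (Set.range v),
      θ ^ a * x = θ ^ (a + k) * (∑ b, (c b : ℕ) • v b) + (e : ℤ) • z := by
  classical
  choose c z hz hc using fun j : ℕ => reduce v he (hθ x hx (j * (k + 1)))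
  have key : ∀ i j, i < j → c i = c j → ∃ (a : ℕ) (c : α → Fin e),
      ∃ z ∈ Submodule.span ℤ (Set.range v),
      θ ^ a * x = θ ^ (a + k) * (∑ b, (c b : ℕ) • v b) + (e : ℤ) • z := by
    intro i j hij hcij
    obtain ⟨r, hr⟩ : ∃ r, j * (k + 1) = i * (k + 1) + k + r := by
      refine Nat.exists_eq_add_of_le ?_
      have := Nat.mul_le_mul_right (k + 1) (Nat.succ_le_of_lt hij)
      rw [Nat.succ_mul] at this
      omega
    obtain ⟨c', z', hz', e'⟩ := reduce v he (hθ x hx r)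
    refine ⟨i * (k + 1), c', θ ^ (i * (k + 1) + k) * z' + z i - z j,
      sub_mem (add_mem (hθ _ hz' _) (hz i)) (hz j), ?_⟩
    have h1 := hc i
    have h2 := hc j
    rw [hr, pow_add θ _ r, mul_assoc, e', ← hcij, mul_add, mul_smul_comm] at h2
    rw [h1, smul_sub, smul_add, ← add_sub_assoc, ← add_assoc, h2]
    abel
  obtain ⟨i, j, hij, hcij⟩ := Finite.exists_ne_map_eq_of_infinite c
  rcases lt_or_gt_of_ne hij with h | h
  · exact key i j h hcij
  · exact key j i h hcij.symm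

theorem nil_pow {D : ℕ}
    (hD : ∀ l : List L, l.length = D → (∀ x ∈ l, x ∈ Submodule.span ℤ (Set.range w)) →
      θ ^ (D * D) * l.prod = 0) {x : L} (hx : x ∈ Submodule.span ℤ (Set.range w) ^ D) :
    θ ^ (D * D) * x = 0 := by
  rw [Submodule.span_pow] at hx
  induction hx using Submodule.span_induction with
  | mem x hx =>
    obtain ⟨f, rfl⟩ := Set.mem_pow.1 hx
    refine hD _ (by simp) fun y hy => ?_
    obtain ⟨i, rfl⟩ := List.mem_ofFn.1 hy
    exact Submodule.subset_span (f i).2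
  | zero => simp
  | add x y _ _ hx hy => rw [mul_add, hx, hy, add_zero]
  | smul a x _ hx => rw [mul_smul_comm, hx, smul_zero]

end Main

theorem uni : UNI := by
  refine ⟨fun N => ((N + 1) ^ N * (N * (N + 1) ^ N) + 1) ^ N,
    PB.pow ((PB.pow PB.id PB.id).mul (PB.id.mul (PB.pow PB.id PB.id))) PB.id, ?_⟩
  intro L _ ν θ s w H e D N ha hm h0 hc hww hθw hD hH hH' h1 hHe he heN hDN hsN hw
  set I := Submodule.span ℤ (Set.range w) with hIdef
  set C := (N + 1) ^ N * (N * (N + 1) ^ N) with hC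
  have hI : I * I ≤ I := by
    rw [hIdef, Submodule.span_mul_span, Submodule.span_le]
    rintro _ ⟨_, ⟨i, rfl⟩, _, ⟨j, rfl⟩, rfl⟩
    exact hww i j
  have hθ : ∀ x ∈ I, θ * x ∈ I := by
    intro x hx
    induction hx using Submodule.span_induction with
    | mem x hx =>
      obtain ⟨i, rfl⟩ := hx
      exact hθw i
    | zero => simp
    | add x y _ _ hx hy => rw [mul_add]; exact add_mem hx hy
    | smul a x _ hx => rw [mul_smul_comm]; exact Submodule.smul_mem _ _ hx
  have hcp : ∀ k x, θ ^ k * x = x * θ ^ k := fun k x => (Commute.pow_left (hc x) k).eq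
  have hnil : ∀ m, D ≤ m → ∀ x ∈ I ^ m, θ ^ (D * D) * x = 0 := by
    intro m hm' x hx
    obtain ⟨r, rfl⟩ := Nat.exists_eq_add_of_le hm'
    rw [pow_add] at hx
    refine Submodule.mul_induction_on hx (fun a ha b _ => ?_) fun a b ha hb => ?_
    · rw [← mul_assoc, nil_pow hD ha, zero_mul]
    · rw [mul_add, ha, hb, add_zero]
  have base : ∀ m, D ≤ m + 1 → ∀ r k, ∀ x ∈ I ^ (m + 1), ∃ x0 ∈ I ^ (m + 1), ∃ (h : L) (a b : ℕ),
      ν x0 + 1 ≤ (C + 1) ^ r ∧ H h ∧ θ ^ a * (1 + x0) = θ ^ b * h * (θ ^ k + x) := by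
    intro m hm' r k x hx
    refine ⟨0, zero_mem _, 1, D * D + k, D * D, ?_, h1, ?_⟩
    · rw [h0]
      exact Nat.one_le_pow _ _ (Nat.succ_pos _)
    · rw [mul_one, mul_add (θ ^ (D * D)), hnil _ hm' x hx, pow_add]
      simp
  have main : ∀ r m, D ≤ m + 1 + r → ∀ k, ∀ x ∈ I ^ (m + 1), ∃ x0 ∈ I ^ (m + 1),
      ∃ (h : L) (a b : ℕ),
      ν x0 + 1 ≤ (C + 1) ^ r ∧ H h ∧ θ ^ a * (1 + x0) = θ ^ b * h * (θ ^ k + x) := by
    intro r
    induction r with
    | zero => exact fun m hm' => base m hm' 0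
    | succ r ih =>
      intro m hm' k x hx
      by_cases hb : D ≤ m + 1
      · exact base m hb _ k x hx
      obtain ⟨α, _, v, hcard, hv, eI⟩ := gens (w := w) hm hw m
      rw [← hIdef] at eI
      obtain ⟨a, c, z, hz, ex⟩ := pigeon (θ := θ) v he
        (fun y hy j => eI ▸ thp_mem hθ (eI ▸ hy) j) k (eI ▸ hx)
      rw [← eI] at hz
      set x0 := ∑ b, (c b : ℕ) • v b with hx0
      have hx0m : x0 ∈ I ^ (m + 1) := eI ▸ Submodule.sum_mem _ fun b _ =>
        nsmul_mem (Submodule.subset_span (Set.mem_range_self b)) _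
      have hx0I := pow_le_one hI m hx0m
      have hzI := pow_le_one hI m hz
      have hν : ν x0 ≤ C := by
        refine (nu_sum ha h0 _ _).trans ((Finset.sum_le_card_nsmul _ _ (N * (N + 1) ^ N)
          fun b _ => (nu_nsmul ha h0 _ _).trans ?_).trans ?_)
        · refine Nat.mul_le_mul ((c b).2.le.trans heN) ((hv b).trans ?_)
          exact (Nat.pow_le_pow_left (Nat.le_succ N) _).trans
            (Nat.pow_le_pow_right (Nat.succ_pos N) (by omega))
        · rw [Finset.card_univ, hcard, smul_eq_mul]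
          refine Nat.mul_le_mul_right _ ?_
          exact (Nat.pow_le_pow_left (hsN.trans (Nat.le_succ N)) _).trans
            (Nat.pow_le_pow_right (Nat.succ_pos N) (by omega))
      set t := θ ^ (a + k) with ht
      have htc : ∀ y, t * y = y * t := hcp _
      have htp : ∀ {n : ℕ}, ∀ y ∈ I ^ (n + 1), ∀ j, t ^ j * y ∈ I ^ (n + 1) := fun y hy j => by
        rw [ht, ← pow_mul]
        exact thp_mem hθ hy _
      obtain ⟨y1, hy1, e1⟩ := binom hI htc htp (fun y hy => thp_mem hθ hy _) hz e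
      -- the error term
      set y := y1 * (t * (1 + x0) + (e : ℤ) • z) - (e : ℤ) • (t ^ (e + 1) * z * x0) -
        (e : ℤ) • (e : ℤ) • (t ^ e * z * z) with hy
      have hym : y ∈ I ^ (m + 2) := by
        refine sub_mem (sub_mem ?_ (Submodule.smul_mem _ _ (mul_right_mem (htp z hz _) hx0I)))
          (Submodule.smul_mem _ _ (Submodule.smul_mem _ _ (mul_right_mem (htp z hz _) hzI)))
        rw [mul_add, ← mul_assoc, ← htc, mul_add, mul_one, mul_smul_comm]
        have h2 : t * y1 ∈ I ^ (m + 2) := thp_mem hθ hy1 _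
        exact add_mem (add_mem h2 (pow_le hI _ (mul_right_mem h2 hx0I)))
          (Submodule.smul_mem _ _ (pow_le hI _ (mul_right_mem hy1 hzI)))
      have e2 : t * (t + -z) ^ e * (θ ^ a * (θ ^ k + x)) = t ^ (e + 2) * (1 + x0) + y := by
        rw [mul_add (θ ^ a), ex, ← pow_add, ← ht, e1, hy]
        have h2 : ∀ u, z * (t * u) = t * (z * u) := fun u => by
          rw [← mul_assoc, ← htc, mul_assoc]
        have h3 : ∀ u v : L, u * ((e : L) * v) = (e : L) * (u * v) := fun u v => by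
          rw [← mul_assoc, ← (Nat.cast_commute e u).eq, mul_assoc]
        have h4 : z * t = t * z := (htc z).symm
        simp only [zsmul_eq_mul, Int.cast_natCast, pow_succ, mul_add, add_mul, sub_mul,
          mul_assoc, h2, h4, mul_one, h3 (t ^ e), h3 t, h3 z, h3 y1]
        abel
      set u := ∑ i ∈ Finset.range D, (-x0) ^ i with hu
      have e3 : θ ^ (D * D) * (u * (1 + x0)) = θ ^ (D * D) := by
        have h2 := geom_sum_mul_neg (-x0) D
        rw [sub_neg_eq_add] at h2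
        rw [hu, h2, mul_sub, mul_one,
          hnil D le_rfl _ (Submodule.pow_mem_pow _ (neg_mem hx0I) D), sub_zero]
      have hyu : θ ^ (D * D) * (y * u) ∈ I ^ (m + 1 + 1) := by
        refine thp_mem hθ ?_ _
        rw [hu, Finset.mul_sum]
        exact Submodule.sum_mem _ fun i _ => mul_pow_mem hI hym (neg_mem hx0I) i
      obtain ⟨x1, hx1, h', a', b', hν', hh', e4⟩ :=
        ih (m + 1) (by omega) (D * D + (a + k) * (e + 2)) _ hyu
      have hx1' := pow_le hI m hx1
      refine ⟨x1 + x0 + x1 * x0, add_mem (add_mem hx1' hx0m) (pow_le hI m (mul_right_mem hx1' hx0I)),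
        h' * (t + -z) ^ e, a', b' + D * D + (a + k) + a, ?_,
        hH _ _ hh' (hHe _ _ (neg_mem hzI)), ?_⟩
      · have h2 := (ha (x1 + x0) (x1 * x0)).trans (Nat.add_le_add (ha x1 x0) (hm x1 x0))
        have h3 := Nat.mul_le_mul hν' (Nat.add_le_add_right hν 1)
        rw [pow_succ]
        nlinarith
      · have e5 : (θ ^ (D * D + (a + k) * (e + 2)) + θ ^ (D * D) * (y * u)) * (1 + x0) =
            θ ^ (D * D) * (t * (t + -z) ^ e * (θ ^ a * (θ ^ k + x))) := by
          rw [e2, add_mul, mul_add (θ ^ (D * D)), pow_add, pow_mul θ (a + k), ← ht, mul_assoc,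
            mul_assoc, mul_assoc, ← mul_assoc (θ ^ (D * D)) y, hcp _ y, mul_assoc y, e3]
        have e6 : 1 + (x1 + x0 + x1 * x0) = (1 + x1) * (1 + x0) := by noncomm_ring
        rw [e6, ← mul_assoc, e4, mul_assoc _ _ (1 + x0), e5, pow_add θ _ a, pow_add θ _ (a + k),
          pow_add θ b', ← ht]
        have h2 : ∀ j (p q : L), p * (θ ^ j * q) = θ ^ j * (p * q) := fun j p q => by
          rw [← mul_assoc, ← hcp, mul_assoc]
        have h3 : ∀ p q : L, p * (t * q) = t * (p * q) := h2 _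
        simp only [mul_assoc, h2 _ h', h3 h', h2 a ((t + -z) ^ e)]
  intro k x hx
  obtain ⟨x0, hx0, h, a, b, hν, hh, e1⟩ := main N 0 (by omega) k x (by simpa using hx)
  exact ⟨x0, by simpa using hx0, h, a, b, (Nat.le_succ _).trans hν, hh, e1⟩

end Pool.Agent.MP_993212_an.H85
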